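import Pool.Agent.H83.V.T1
import Pool.Agent.H24.UG.T4
import Pool.Agent.H55.AG.A0

/-!
Theorem V, row P3V: the bad words for the conditional probabilities over the
tower.
-/

set_option autoImplicit false

open MeasureTheory ProbabilityTheory Filter Topology Finset
open scoped Nat ENNReal

namespace Pool.Agent.H7.V

open Pool.Agent.H24.T2 (Pset)
open Pool.Agent.H67.AG (avgP ul Inv Rt Av SA kap JJ TT InvZ nxt triv tow XN PN TN XX PX TX prX Fac)
open Pool.Agent.H28.LF (Wd La Cd dm ds)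
open Pool.Agent.H83.V

namespace P3V

/-! ### averages and products -/

theorem avgP_sum {ι : Type} [Fintype ι] (W m : ℕ) (F : ι → ℕ → ℝ) :
    avgP W m (fun p => ∑ v, F v p) = ∑ v, avgP W m (F v) := by
  unfold avgP
  rw [Finset.sum_comm, Finset.sum_div]

theorem prod_pad {R n : ℕ} (h : R ≤ n) (G : Fin R → ℝ) :
    ∏ i : Fin n, (if h : (i : ℕ) < R then G ⟨i, h⟩ else 1) = ∏ i : Fin R, G i := by
  obtain ⟨d, rfl⟩ := Nat.exists_eq_add_of_le h
  rw [Fin.prod_univ_add]
  simp

/-! ### the indicator functions and the conditional probabilities -/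

section fns

variable (c : Vx) (J : ℕ)

/-- the indicator function of a symbol -/
noncomputable def ind (b : Fin c.q) : c.X → ℝ := (c.a ⁻¹' {b}).indicator (fun _ => (1 : ℝ))

/-- the conditional probability, with values in the unit interval -/
noncomputable def wc (b : Fin c.q) (x : c.X) : ℝ := max 0 (min 1 (c.wt (tow c.μ c.T J) b x))

theorem ind_meas (b : Fin c.q) : Measurable (ind c b) :=
  measurable_const.indicator (c.am (measurableSet_singleton b))

theorem ind_01 (b : Fin c.q) (x : c.X) : 0 ≤ ind c b x ∧ ind c b x ≤ 1 := by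
  unfold ind
  by_cases hx : x ∈ c.a ⁻¹' {b}
  · rw [Set.indicator_of_mem hx]
    exact ⟨zero_le_one, le_rfl⟩
  · rw [Set.indicator_of_notMem hx]
    exact ⟨le_rfl, zero_le_one⟩

theorem ind_int (b : Fin c.q) : Integrable (ind c b) c.μ :=
  Integrable.of_bound (ind_meas c b).aestronglyMeasurable 1 (Eventually.of_forall fun x => by
    rw [Real.norm_eq_abs, abs_of_nonneg (ind_01 c b x).1]
    exact (ind_01 c b x).2)

theorem wc_measZ (b : Fin c.q) : Measurable[(tow c.μ c.T J).1] (wc c J b) := by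
  have h : Measurable[(tow c.μ c.T J).1] (c.wt (tow c.μ c.T J) b) :=
    stronglyMeasurable_condExp.measurable
  exact Measurable.max measurable_const (Measurable.min measurable_const h)

theorem wc_meas (b : Fin c.q) : Measurable (wc c J b) :=
  (wc_measZ c J b).mono (tow c.μ c.T J).2 le_rfl

theorem wc_01 (b : Fin c.q) (x : c.X) : 0 ≤ wc c J b x ∧ wc c J b x ≤ 1 :=
  ⟨le_max_left _ _, max_le zero_le_one (min_le_left _ _)⟩

theorem wc_int (b : Fin c.q) : Integrable (wc c J b) c.μ :=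
  Integrable.of_bound (wc_meas c J b).aestronglyMeasurable 1 (Eventually.of_forall fun x => by
    rw [Real.norm_eq_abs, abs_of_nonneg (wc_01 c J b x).1]
    exact (wc_01 c J b x).2)

theorem wc_ae (b : Fin c.q) : wc c J b =ᵐ[c.μ] c.wt (tow c.μ c.T J) b := by
  have h0 : (0 : c.X → ℝ) ≤ᵐ[c.μ] c.μ[ind c b | (tow c.μ c.T J).1] :=
    condExp_nonneg (Eventually.of_forall fun x => (ind_01 c b x).1)
  have h1 : ∀ᵐ x ∂c.μ, |(c.μ[ind c b | (tow c.μ c.T J).1]) x| ≤ (1 : ℝ) :=
    ae_bdd_abs_condExp_of_ae_bdd_abs (R := (1 : ℝ)) (Eventually.of_forall fun x => by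
      rw [abs_of_nonneg (ind_01 c b x).1]
      exact (ind_01 c b x).2)
  filter_upwards [h0, h1] with x hx0 hx1
  have hx0' : 0 ≤ c.wt (tow c.μ c.T J) b x := hx0
  have hx1' : |c.wt (tow c.μ c.T J) b x| ≤ 1 := hx1
  unfold wc
  rw [min_eq_right (abs_le.mp hx1').2, max_eq_right hx0']

/-- the difference has no conditional expectation -/
theorem dif_condExp (b : Fin c.q) :
    c.μ[fun x => ind c b x - wc c J b x | (tow c.μ c.T J).1] =ᵐ[c.μ] 0 := by
  have h2 : c.μ[ind c b - wc c J b | (tow c.μ c.T J).1] =ᵐ[c.μ]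
      c.μ[ind c b | (tow c.μ c.T J).1] - c.μ[wc c J b | (tow c.μ c.T J).1] :=
    condExp_sub (ind_int c b) (wc_int c J b) _
  have h3 : c.μ[wc c J b | (tow c.μ c.T J).1] = wc c J b :=
    condExp_of_stronglyMeasurable (tow c.μ c.T J).2 (wc_measZ c J b).stronglyMeasurable
      (wc_int c J b)
  have h4 : (fun x => ind c b x - wc c J b x) = ind c b - wc c J b := rfl
  rw [h4]
  filter_upwards [h2, wc_ae c J b] with x hx2 hx3
  rw [hx2, Pi.sub_apply, h3, hx3]
  exact sub_self _

/-! ### the step -/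

theorem core (h3 : Pool.Agent.H24.UG.T_UP3) {R : ℕ} (hR : R ≤ J + 1) (l : Fin R)
    (g : Fin R → c.X → ℝ) (hg : ∀ i, Measurable (g i)) (hb : ∀ i x, |g i x| ≤ 1)
    (hl : c.μ[g l | (tow c.μ c.T J).1] =ᵐ[c.μ] 0) (ε : ℝ) (hε : 0 < ε) :
    ∃ m₀ : ℕ, ∀ m, m₀ ≤ m → ∀ σ : ℕ → ℝ, Pool.Agent.H24.UG.Sgn σ →
      |avgP 2 m fun p => σ p * ∫ x, ∏ i, g i (c.T^[p * ((i : ℕ) + 1)] x) ∂c.μ| ≤ ε := by
  obtain ⟨m₀, hm₀⟩ := h3 c.X c.μ c.T (J + 1) 2 (fun i => (i : ℕ) + 1) (Fin.castLE hR l) (g l) ε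
    c.erg (fun i j h => Fin.ext (Nat.add_right_cancel h)) two_pos even_two (hg l) (hb l)
    (by rw [Nat.add_sub_cancel]; exact hl) hε
  refine ⟨m₀, fun m hm σ hσ => ?_⟩
  have hTm : MeasurePreserving c.T c.μ c.μ := c.erg.toMeasurePreserving
  have hSm : MeasurePreserving (c.T.symm^[(l : ℕ) + 1]) c.μ c.μ :=
    (MeasurePreserving.symm c.T hTm).iterate _
  have hcom : ∀ (n : ℕ) (x : c.X), c.T.symm^[(l : ℕ) + 1] (c.T^[n] x) =
      c.T^[n] (c.T.symm^[(l : ℕ) + 1] x) := by
    have hc : Function.Commute c.T.symm c.T := fun x => by simp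
    exact fun n x => hc.iterate_iterate _ _ x
  have hinv : ∀ x : c.X, c.T^[(l : ℕ) + 1] (c.T.symm^[(l : ℕ) + 1] x) = x := by
    have hi : Function.LeftInverse c.T c.T.symm := fun x => by simp
    exact hi.iterate _
  have key := hm₀ m hm σ hσ
    (fun i => if h : (i : ℕ) < R then
      (fun x => g ⟨i, h⟩ (c.T^[(i : ℕ) + 1] (c.T.symm^[(l : ℕ) + 1] x))) else fun _ => 1)
    ?_ ?_ ?_
  · have e : (avgP 2 m fun p => σ p * ∫ x, ∏ i, g i (c.T^[p * ((i : ℕ) + 1)] x) ∂c.μ) =
        avgP 2 m fun p => σ p * ∫ x, ∏ i : Fin (J + 1), (if h : (i : ℕ) < R then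
          (fun x => g ⟨i, h⟩ (c.T^[(i : ℕ) + 1] (c.T.symm^[(l : ℕ) + 1] x))) else fun _ => 1)
            (c.T^[(p - 1) * ((i : ℕ) + 1)] x) ∂c.μ := by
      refine Pool.Agent.H55.AG.avgP_congr fun p hp => ?_
      have hp1 : 1 ≤ p := by
        unfold Pset at hp
        rw [Finset.mem_filter] at hp
        exact hp.2.1.one_lt.le
      congr 1
      have hFm : Measurable fun x => ∏ i, g i (c.T^[p * ((i : ℕ) + 1)] x) :=
        Finset.measurable_prod _ fun i _ => (hg i).comp (c.T.measurable.iterate _)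
      have e1 : ∫ x, ∏ i, g i (c.T^[p * ((i : ℕ) + 1)] x) ∂c.μ =
          ∫ x, ∏ i, g i (c.T^[p * ((i : ℕ) + 1)] (c.T.symm^[(l : ℕ) + 1] x)) ∂c.μ := by
        have h1 := integral_map (μ := c.μ) hSm.measurable.aemeasurable
          (f := fun x => ∏ i, g i (c.T^[p * ((i : ℕ) + 1)] x)) hFm.aestronglyMeasurable
        rw [hSm.map_eq] at h1
        exact h1
      rw [e1]
      congr 1
      funext x
      rw [← prod_pad hR]
      refine Finset.prod_congr rfl fun i _ => ?_
      by_cases h : (i : ℕ) < R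
      · rw [dif_pos h, dif_pos h]
        change g ⟨i, h⟩ (c.T^[p * ((i : ℕ) + 1)] (c.T.symm^[(l : ℕ) + 1] x)) =
          g ⟨i, h⟩ (c.T^[(i : ℕ) + 1] (c.T.symm^[(l : ℕ) + 1] (c.T^[(p - 1) * ((i : ℕ) + 1)] x)))
        rw [hcom, ← Function.iterate_add_apply]
        congr 2
        have h4 : p = (p - 1) + 1 := by omega
        conv_lhs => rw [h4]
        ring
      · rw [dif_neg h, dif_neg h]
    rw [e]
    exact key
  · intro i
    by_cases h : (i : ℕ) < R
    · rw [dif_pos h]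
      exact (hg _).comp ((c.T.measurable.iterate _).comp (c.T.symm.measurable.iterate _))
    · rw [dif_neg h]
      exact measurable_const
  · intro i x
    by_cases h : (i : ℕ) < R
    · rw [dif_pos h]
      exact hb _ _
    · rw [dif_neg h]
      simp
  · have h : ((Fin.castLE hR l : Fin (J + 1)) : ℕ) < R := l.2
    change (if h : ((Fin.castLE hR l : Fin (J + 1)) : ℕ) < R then
      (fun x => g ⟨(Fin.castLE hR l : Fin (J + 1)), h⟩
        (c.T^[((Fin.castLE hR l : Fin (J + 1)) : ℕ) + 1] (c.T.symm^[(l : ℕ) + 1] x)))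
        else fun _ => 1) = g l
    rw [dif_pos h]
    funext x
    exact congrArg (g l) (hinv x)

/-! ### hybrids -/

/-- the first `s` functions are replaced -/
noncomputable def hyb {R : ℕ} (s : ℕ) (v : Fin R → Fin c.q) (i : Fin R) : c.X → ℝ :=
  if (i : ℕ) < s then wc c J (v i) else ind c (v i)

theorem hyb_meas {R : ℕ} (s : ℕ) (v : Fin R → Fin c.q) (i : Fin R) :
    Measurable (hyb c J s v i) := by
  unfold hyb
  by_cases h : (i : ℕ) < s
  · rw [if_pos h]; exact wc_meas c J _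
  · rw [if_neg h]; exact ind_meas c _

theorem hyb_01 {R : ℕ} (s : ℕ) (v : Fin R → Fin c.q) (i : Fin R) (x : c.X) :
    0 ≤ hyb c J s v i x ∧ hyb c J s v i x ≤ 1 := by
  unfold hyb
  by_cases h : (i : ℕ) < s
  · rw [if_pos h]; exact wc_01 c J _ x
  · rw [if_neg h]; exact ind_01 c _ x

theorem hyb_abs {R : ℕ} (s : ℕ) (v : Fin R → Fin c.q) (i : Fin R) (x : c.X) :
    |hyb c J s v i x| ≤ 1 := by
  rw [abs_of_nonneg (hyb_01 c J s v i x).1]
  exact (hyb_01 c J s v i x).2

/-- the integral of the hybrid -/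
noncomputable def HI {R : ℕ} (s : ℕ) (v : Fin R → Fin c.q) (p : ℕ) : ℝ :=
  ∫ x, ∏ i, hyb c J s v i (c.T^[p * ((i : ℕ) + 1)] x) ∂c.μ

theorem prod_meas {R : ℕ} (g : Fin R → c.X → ℝ) (hg : ∀ i, Measurable (g i)) (p : ℕ) :
    Measurable fun x => ∏ i, g i (c.T^[p * ((i : ℕ) + 1)] x) :=
  Finset.measurable_prod _ fun i _ => (hg i).comp (c.T.measurable.iterate _)

theorem prod_abs {R : ℕ} (g : Fin R → c.X → ℝ) (hb : ∀ i x, |g i x| ≤ 1) (p : ℕ) (x : c.X) :
    |∏ i, g i (c.T^[p * ((i : ℕ) + 1)] x)| ≤ 1 := by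
  rw [Finset.abs_prod]
  exact Finset.prod_le_one (fun i _ => abs_nonneg _) fun i _ => hb i _

theorem prod_int {R : ℕ} (g : Fin R → c.X → ℝ) (hg : ∀ i, Measurable (g i))
    (hb : ∀ i x, |g i x| ≤ 1) (p : ℕ) :
    Integrable (fun x => ∏ i, g i (c.T^[p * ((i : ℕ) + 1)] x)) c.μ :=
  Integrable.of_bound (prod_meas c g hg p).aestronglyMeasurable 1
    (Eventually.of_forall fun x => by
      rw [Real.norm_eq_abs]
      exact prod_abs c g hb p x)

theorem HI_abs {R : ℕ} (s : ℕ) (v : Fin R → Fin c.q) (p : ℕ) : |HI c J s v p| ≤ 1 := by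
  have h := norm_integral_le_of_norm_le_const (μ := c.μ) (C := 1)
    (f := fun x => ∏ i, hyb c J s v i (c.T^[p * ((i : ℕ) + 1)] x))
    (Eventually.of_forall fun x => by
      rw [Real.norm_eq_abs]; exact prod_abs c _ (hyb_abs c J s v) p x)
  rw [Real.norm_eq_abs, one_mul] at h
  exact h.trans measureReal_le_one

open Classical in
/-- the average of the hybrids -/
noncomputable def AI {R : ℕ} (B : ℕ → Set (Fin R → Fin c.q)) (s m : ℕ) : ℝ :=
  avgP 2 m fun p => c.s p * ∑ v : Fin R → Fin c.q, if v ∈ B p then HI c J s v p else 0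

theorem s_abs (p : ℕ) : |c.s p| ≤ 1 := by
  rcases c.sv p with h | h <;> rw [h] <;> simp

theorem AI_abs {R : ℕ} (B : ℕ → Set (Fin R → Fin c.q)) (s : ℕ) : ∃ C, ∀ m, |AI c J B s m| ≤ C := by
  classical
  refine ⟨∑ _v : Fin R → Fin c.q, (1 : ℝ), fun m => ?_⟩
  unfold AI
  refine Pool.Agent.H55.AG.abs_avgP_le (Finset.sum_nonneg fun _ _ => zero_le_one) fun p => ?_
  rw [abs_mul]
  refine (mul_le_of_le_one_left (abs_nonneg _) (s_abs c p)).trans ?_
  refine (Finset.abs_sum_le_sum_abs _ _).trans (Finset.sum_le_sum fun v _ => ?_)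
  by_cases hv : v ∈ B p
  · rw [if_pos hv]; exact HI_abs c J s v p
  · rw [if_neg hv, abs_zero]; exact zero_le_one

theorem HI_step {R : ℕ} (s : ℕ) (hs : s < R) (v : Fin R → Fin c.q) (p : ℕ) :
    HI c J s v p - HI c J (s + 1) v p =
      ∫ x, ∏ i : Fin R, (if (i : ℕ) = s then (fun x => ind c (v i) x - wc c J (v i) x)
        else hyb c J s v i) (c.T^[p * ((i : ℕ) + 1)] x) ∂c.μ := by
  unfold HI
  rw [← integral_sub (prod_int c _ (hyb_meas c J s v) (hyb_abs c J s v) p)
    (prod_int c _ (hyb_meas c J (s + 1) v) (hyb_abs c J (s + 1) v) p)]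
  congr 1
  funext x
  obtain ⟨l, hl⟩ : ∃ l : Fin R, (l : ℕ) = s := ⟨⟨s, hs⟩, rfl⟩
  rw [← Finset.mul_prod_erase Finset.univ _ (Finset.mem_univ l),
    ← Finset.mul_prod_erase Finset.univ
      (fun i => hyb c J (s + 1) v i (c.T^[p * ((i : ℕ) + 1)] x)) (Finset.mem_univ l),
    ← Finset.mul_prod_erase Finset.univ
      (fun i : Fin R => (if (i : ℕ) = s then (fun x => ind c (v i) x - wc c J (v i) x)
        else hyb c J s v i) (c.T^[p * ((i : ℕ) + 1)] x)) (Finset.mem_univ l)]
  have e1 : ∏ i ∈ Finset.univ.erase l, hyb c J (s + 1) v i (c.T^[p * ((i : ℕ) + 1)] x) =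
      ∏ i ∈ Finset.univ.erase l, hyb c J s v i (c.T^[p * ((i : ℕ) + 1)] x) := by
    refine Finset.prod_congr rfl fun i hi => ?_
    have hne : (i : ℕ) ≠ s := fun h => Finset.ne_of_mem_erase hi (Fin.ext (h.trans hl.symm))
    have e2 : hyb c J (s + 1) v i = hyb c J s v i := by
      unfold hyb
      by_cases h : (i : ℕ) < s
      · rw [if_pos h, if_pos (by omega)]
      · rw [if_neg h, if_neg (by omega)]
    rw [e2]
  have e3 : ∏ i ∈ Finset.univ.erase l, (if (i : ℕ) = s then
      (fun x => ind c (v i) x - wc c J (v i) x) else hyb c J s v i)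
        (c.T^[p * ((i : ℕ) + 1)] x) =
      ∏ i ∈ Finset.univ.erase l, hyb c J s v i (c.T^[p * ((i : ℕ) + 1)] x) := by
    refine Finset.prod_congr rfl fun i hi => ?_
    have hne : (i : ℕ) ≠ s := fun h => Finset.ne_of_mem_erase hi (Fin.ext (h.trans hl.symm))
    rw [if_neg hne]
  rw [e1, e3, if_pos hl]
  have e4 : hyb c J s v l = ind c (v l) := by
    unfold hyb
    rw [if_neg (by omega)]
  have e5 : hyb c J (s + 1) v l = wc c J (v l) := by
    unfold hyb
    rw [if_pos (by omega)]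
  rw [e4, e5]
  ring

theorem AI_step (h3 : Pool.Agent.H24.UG.T_UP3) {R : ℕ} (hR : R ≤ J + 1)
    (B : ℕ → Set (Fin R → Fin c.q)) (s : ℕ) (hs : s < R) :
    Tendsto (fun m => AI c J B s m - AI c J B (s + 1) m) atTop (𝓝 0) := by
  classical
  have hgm : ∀ (v : Fin R → Fin c.q) (i : Fin R), Measurable (if (i : ℕ) = s then
      (fun x => ind c (v i) x - wc c J (v i) x) else hyb c J s v i) := by
    intro v i
    by_cases hi : (i : ℕ) = s
    · rw [if_pos hi]; exact (ind_meas c _).sub (wc_meas c J _)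
    · rw [if_neg hi]; exact hyb_meas c J s v i
  have hgb : ∀ (v : Fin R → Fin c.q) (i : Fin R) (x : c.X), |(if (i : ℕ) = s then
      (fun x => ind c (v i) x - wc c J (v i) x) else hyb c J s v i) x| ≤ 1 := by
    intro v i x
    by_cases hi : (i : ℕ) = s
    · rw [if_pos hi]
      have h1 := ind_01 c (v i) x
      have h2 := wc_01 c J (v i) x
      rw [abs_le]
      constructor <;> linarith [h1.1, h1.2, h2.1, h2.2]
    · rw [if_neg hi]; exact hyb_abs c J s v i x
  have heq : ∀ m, AI c J B s m - AI c J B (s + 1) m =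
      ∑ v : Fin R → Fin c.q, avgP 2 m fun p => (if v ∈ B p then c.s p else 0) *
        ∫ x, ∏ i : Fin R, (if (i : ℕ) = s then (fun x => ind c (v i) x - wc c J (v i) x)
          else hyb c J s v i) (c.T^[p * ((i : ℕ) + 1)] x) ∂c.μ := by
    intro m
    unfold AI
    rw [Pool.Agent.H55.AG.avgP_sub, ← avgP_sum]
    refine Pool.Agent.H55.AG.avgP_congr fun p _ => ?_
    rw [← mul_sub, ← Finset.sum_sub_distrib, Finset.mul_sum]
    refine Finset.sum_congr rfl fun v _ => ?_
    rw [← HI_step c J s hs v p]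
    by_cases hv : v ∈ B p
    · rw [if_pos hv, if_pos hv, if_pos hv]
    · rw [if_neg hv, if_neg hv, if_neg hv]
      ring
  rw [Metric.tendsto_atTop]
  intro ε hε
  have hN : (0 : ℝ) < Fintype.card (Fin R → Fin c.q) + 1 := by positivity
  have hcore := fun v : Fin R → Fin c.q => core c J h3 hR ⟨s, hs⟩
    (fun i => if (i : ℕ) = s then (fun x => ind c (v i) x - wc c J (v i) x)
      else hyb c J s v i) (hgm v) (hgb v) (by
        change c.μ[(if s = s then (fun x => ind c (v ⟨s, hs⟩) x - wc c J (v ⟨s, hs⟩) x)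
          else hyb c J s v ⟨s, hs⟩) | (tow c.μ c.T J).1] =ᵐ[c.μ] 0
        rw [if_pos rfl]
        exact dif_condExp c J _) (ε / (Fintype.card (Fin R → Fin c.q) + 1))
    (div_pos hε hN)
  choose m₀ hm₀ using hcore
  refine ⟨∑ v, m₀ v, fun m hm => ?_⟩
  rw [Real.dist_eq, sub_zero, heq m]
  calc |∑ v : Fin R → Fin c.q, avgP 2 m fun p => (if v ∈ B p then c.s p else 0) *
        ∫ x, ∏ i : Fin R, (if (i : ℕ) = s then (fun x => ind c (v i) x - wc c J (v i) x)
          else hyb c J s v i) (c.T^[p * ((i : ℕ) + 1)] x) ∂c.μ|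
      ≤ ∑ v : Fin R → Fin c.q, |avgP 2 m fun p => (if v ∈ B p then c.s p else 0) *
        ∫ x, ∏ i : Fin R, (if (i : ℕ) = s then (fun x => ind c (v i) x - wc c J (v i) x)
          else hyb c J s v i) (c.T^[p * ((i : ℕ) + 1)] x) ∂c.μ| :=
        Finset.abs_sum_le_sum_abs _ _
    _ ≤ ∑ _v : Fin R → Fin c.q, ε / (Fintype.card (Fin R → Fin c.q) + 1) := by
        refine Finset.sum_le_sum fun v _ => ?_
        refine hm₀ v m ?_ (fun p => if v ∈ B p then c.s p else 0) ?_
        · exact (Finset.single_le_sum (f := m₀) (fun _ _ => Nat.zero_le _)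
            (Finset.mem_univ v)).trans hm
        · intro p
          change (if v ∈ B p then c.s p else 0) = 0 ∨ (if v ∈ B p then c.s p else 0) = 1 ∨
            (if v ∈ B p then c.s p else 0) = -1
          by_cases hv : v ∈ B p
          · rw [if_pos hv]
            rcases c.sv p with h | h
            · exact Or.inl h
            · exact Or.inr (Or.inl h)
          · rw [if_neg hv]
            exact Or.inl rfl
    _ < ε := by
        rw [Finset.sum_const, nsmul_eq_mul, Finset.card_univ, mul_div_assoc', div_lt_iff₀ hN]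
        linarith

theorem AI_ul (h3 : Pool.Agent.H24.UG.T_UP3) (hU : Pool.Agent.H67.AG.T_UL) {R : ℕ}
    (hR : R ≤ J + 1) (B : ℕ → Set (Fin R → Fin c.q)) (s : ℕ) (hs : s ≤ R) :
    ul c.U (AI c J B 0) = ul c.U (AI c J B s) := by
  induction s with
  | zero => rfl
  | succ s ih =>
    rw [ih (by omega)]
    exact Pool.Agent.H55.AG.ul_eq_of_sub hU c.hU (AI_abs c J B s) (AI_abs c J B (s + 1))
      (AI_step c J h3 hR B s (by omega))

/-! ### the two ends -/

theorem prod_ind {R : ℕ} (v : Fin R → Fin c.q) (p : ℕ) (x : c.X) :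
    ∏ i : Fin R, ind c (v i) (c.T^[p * ((i : ℕ) + 1)] x) =
      if Wd c.T c.a R p x = v then 1 else 0 := by
  by_cases h : Wd c.T c.a R p x = v
  · rw [if_pos h]
    refine Finset.prod_eq_one fun i _ => ?_
    have h1 : c.T^[p * ((i : ℕ) + 1)] x ∈ c.a ⁻¹' {v i} := by
      change c.a (c.T^[p * ((i : ℕ) + 1)] x) ∈ ({v i} : Set (Fin c.q))
      rw [Set.mem_singleton_iff, ← h]
      rfl
    exact Set.indicator_of_mem h1 (fun _ => (1 : ℝ))
  · rw [if_neg h]
    obtain ⟨i, hi⟩ := Function.ne_iff.mp h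
    refine Finset.prod_eq_zero (Finset.mem_univ i) ?_
    have h1 : c.T^[p * ((i : ℕ) + 1)] x ∉ c.a ⁻¹' {v i} := fun h' => hi h'
    exact Set.indicator_of_notMem h1 (fun _ => (1 : ℝ))

theorem wd_meas (R p : ℕ) : Measurable fun x => Wd c.T c.a R p x := by
  refine measurable_pi_lambda _ fun i => ?_
  exact c.am.comp (c.T.measurable.iterate _)

open Classical in
theorem end0 {R : ℕ} (B : Set (Fin R → Fin c.q)) (p : ℕ) :
    c.μ.real (Set.univ ∩ {x | Wd c.T c.a R p x ∈ B}) =
      ∑ v : Fin R → Fin c.q, if v ∈ B then HI c J 0 v p else 0 := by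
  have hm : MeasurableSet {x | Wd c.T c.a R p x ∈ B} :=
    (wd_meas c R p) (MeasurableSet.of_discrete : MeasurableSet B)
  have hi : ∀ v : Fin R → Fin c.q, Integrable (fun x =>
      if v ∈ B then (if Wd c.T c.a R p x = v then (1 : ℝ) else 0) else 0) c.μ := by
    intro v
    by_cases hv : v ∈ B
    · simp only [if_pos hv]
      have h := prod_int c (fun i => ind c (v i)) (fun i => ind_meas c _) (fun i x => by
        rw [abs_of_nonneg (ind_01 c _ x).1]
        exact (ind_01 c _ x).2) p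
      simp only [prod_ind] at h
      exact h
    · simp only [if_neg hv]
      exact integrable_const _
  rw [Set.univ_inter, ← integral_indicator_one hm]
  have e : ∀ x, ({x | Wd c.T c.a R p x ∈ B}.indicator (1 : c.X → ℝ)) x =
      ∑ v : Fin R → Fin c.q, if v ∈ B then (if Wd c.T c.a R p x = v then (1 : ℝ) else 0) else 0 := by
    intro x
    rw [Finset.sum_eq_single (Wd c.T c.a R p x)]
    · rw [if_pos rfl]
      by_cases h : Wd c.T c.a R p x ∈ B
      · rw [if_pos h]
        exact Set.indicator_of_mem (s := {x | Wd c.T c.a R p x ∈ B}) h _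
      · rw [if_neg h]
        exact Set.indicator_of_notMem (s := {x | Wd c.T c.a R p x ∈ B}) h _
    · intro v _ hv
      rw [if_neg (Ne.symm hv), ite_self]
    · intro h
      exact absurd (Finset.mem_univ _) h
  rw [integral_congr_ae (Eventually.of_forall e), integral_finsetSum _ fun v _ => hi v]
  refine Finset.sum_congr rfl fun v _ => ?_
  by_cases hv : v ∈ B
  · simp only [if_pos hv]
    unfold HI
    congr 1
    funext x
    rw [← prod_ind c v p x]
    refine Finset.prod_congr rfl fun i _ => ?_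
    unfold hyb
    rw [if_neg (Nat.not_lt_zero _)]
  · simp only [if_neg hv]
    exact integral_zero _ _

theorem endR {R : ℕ} (v : Fin R → Fin c.q) (p : ℕ) :
    HI c J R v p = ∫ x, ∏ i : Fin R, c.wt (tow c.μ c.T J) (v i) (c.T^[p * ((i : ℕ) + 1)] x) ∂c.μ := by
  unfold HI
  refine integral_congr_ae ?_
  have h : ∀ i : Fin R, ∀ᵐ x ∂c.μ, wc c J (v i) (c.T^[p * ((i : ℕ) + 1)] x) =
      c.wt (tow c.μ c.T J) (v i) (c.T^[p * ((i : ℕ) + 1)] x) := fun i =>
    (c.erg.toMeasurePreserving.iterate _).quasiMeasurePreserving.ae (wc_ae c J (v i))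
  filter_upwards [ae_all_iff.mpr h] with x hx
  refine Finset.prod_congr rfl fun i _ => ?_
  unfold hyb
  rw [if_pos i.isLt]
  exact hx i

end fns

end P3V

open P3V in
/-- P3V -/
theorem pf_P3V (h3 : Pool.Agent.H24.UG.T_UP3) (hU : Pool.Agent.H67.AG.T_UL) : T_P3V := by
  classical
  intro c J hR
  have h0 : La c.U c.s c.μ c.T c.a c.Bad Set.univ = ul c.U (AI c J c.Bad 0) := by
    unfold La
    congr 1
    funext m
    unfold AI
    refine Pool.Agent.H55.AG.avgP_congr fun p _ => ?_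
    rw [end0 c J]
  rw [h0, AI_ul c J h3 hU hR c.Bad c.m le_rfl]
  congr 1
  funext m
  unfold AI
  refine Pool.Agent.H55.AG.avgP_congr fun p _ => ?_
  congr 1
  refine Finset.sum_congr rfl fun v _ => ?_
  rw [endR c J v p]

end Pool.Agent.H7.V
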