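import Pool.Agent.H83.V.FV
import Pool.Agent.H67.AG.T3

/-!
Theorem V: row VXY, the data of the ergodic part from a component with infinitely many good
scales.
-/

set_option autoImplicit false

open MeasureTheory ProbabilityTheory Filter Topology Finset
open scoped Nat ENNReal

namespace Pool.Agent.H7.V

open Pool.Agent.H24.T2 (Pset)
open Pool.Agent.H67.AG (avgP ul Inv Rt Av)
open Pool.Agent.H28.LF (Wd La Cd dm ds lt ng SS ptS LX Xi LY Yi shX shY lX lY btY flY xiY SysX SysY
  CompY LwY ExY Wa DcO sY GoodC)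
open Pool.Agent.H83.V

namespace VXY

theorem avgP_abs (m : ℕ) (f : ℕ → ℝ) (hf : ∀ p, |f p| ≤ 1) : |avgP 2 m f| ≤ 1 := by
  unfold avgP
  rw [abs_div, Nat.abs_cast]
  rcases Nat.eq_zero_or_pos (Pset 2 m).card with h | h
  · rw [h]
    simp
  · rw [div_le_one (by exact_mod_cast h)]
    exact (Finset.abs_sum_le_sum_abs _ _).trans
      ((Finset.sum_le_sum fun p _ => hf p).trans (by simp))

theorem exists_U (G : ℕ → Set ℕ) (hne : ∀ i, (G i).Nonempty) (hmono : ∀ i j, i ≤ j → G j ⊆ G i)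
    (hge : ∀ i m, m ∈ G i → i ≤ m) :
    ∃ U : Ultrafilter ℕ, (U : Filter ℕ) ≤ atTop ∧ ∀ i, G i ∈ (U : Filter ℕ) := by
  have hnb : (⨅ i, 𝓟 (G i)).NeBot := by
    refine Filter.iInf_neBot_of_directed ?_ fun i => Filter.principal_neBot_iff.2 (hne i)
    intro i j
    exact ⟨max i j, principal_mono.2 (hmono _ _ (le_max_left _ _)),
      principal_mono.2 (hmono _ _ (le_max_right _ _))⟩
  refine ⟨Ultrafilter.of (⨅ i, 𝓟 (G i)), ?_, ?_⟩
  · refine (Ultrafilter.of_le _).trans ?_
    exact le_iInf fun a => (iInf_le _ a).trans (principal_mono.2 fun m hm => hge a m hm)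
  · intro i
    exact Ultrafilter.of_le _ (Filter.mem_iInf_of_mem i (Filter.mem_principal_self _))

theorem sY_val (F : Set Xi) (ν : Measure Yi) (p : ℕ) : sY F ν p = 0 ∨ sY F ν p = 1 := by
  unfold sY
  split_ifs
  · exact Or.inr rfl
  · exact Or.inl rfl

theorem btY_meas : Measurable btY := measurable_fst.comp (measurable_pi_apply (0 : ℤ))

theorem vl_val (z : Bool) (b : Bool × Bool) : vl z b = -1 ∨ vl z b = 0 ∨ vl z b = 1 := by
  unfold vl
  split_ifs <;> simp

theorem vi_vl_inj (z : Bool) (b b' : Bool × Bool) (h : vi (vl z b) = vi (vl z b')) :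
    vl z b = vl z b' := by
  rcases vl_val z b with h1 | h1 | h1 <;> rcases vl_val z b' with h2 | h2 | h2 <;>
    rw [h1, h2] at h ⊢ <;> revert h <;> decide

theorem aY_meas (z : Bool) (w : ℕ) (hr : Measurable (rsq w)) : Measurable (aY z w) := by
  have h1 : Measurable fun ω : Yi => (vi (vl z (btY ω)), rsq w ω) :=
    ((measurable_of_countable (fun b : Bool × Bool => vi (vl z b))).comp btY_meas).prodMk hr
  exact (measurable_of_countable (en w)).comp h1

end VXY

open VXY in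
/-- VXY -/
theorem pf_VXY (hR : T_RLV) (hC : T_VCO) (hN : T_NPV) (hQ : T_RSQ)
    (hU : Pool.Agent.H67.AG.T_UL) : T_VXY := by
  intro z m I w lb γ₀ η F B ν hm hI hw hγ hη hlt hν hF hlb her hfr
  classical
  have hνp : IsProbabilityMeasure ν := hν.prob
  -- the ultrafilter
  obtain ⟨U, hUt, hUG⟩ := exists_U (fun i₀ => {m' | ∃ i, i₀ ≤ i ∧ GoodC F B γ₀ ν i m'})
    (by
      intro i₀
      obtain ⟨i, hi, m', hm'⟩ := (Filter.frequently_atTop.1 hfr) i₀
      exact ⟨m', i, hi, hm'⟩)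
    (by
      rintro i j hij m' ⟨i', hi', hm'⟩
      exact ⟨i', hij.trans hi', hm'⟩)
    (by
      rintro i m' ⟨i', hi', hm'⟩
      exact hi'.trans hm'.le)
  obtain ⟨-, hUle, -, -, hUc⟩ := hU U
  have hsv : ∀ p, |sY F ν p| ≤ 1 := by
    intro p
    rcases sY_val F ν p with h | h <;> rw [h] <;> simp
  have hprod : ∀ (A : ℕ → Set Yi) (p : ℕ), |sY F ν p * ν.real (A p)| ≤ 1 := by
    intro A p
    rw [abs_mul]
    refine mul_le_one₀ (hsv p) (abs_nonneg _) ?_
    rw [abs_of_nonneg measureReal_nonneg]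
    exact measureReal_le_one
  refine ⟨{ X := Yi, μ := ν, pμ := hνp, T := shY, erg := hν.erg, q := qw w,
            a := aY z w, am := aY_meas z w (hQ w ν hν).1, np := ?_, U := U,
            hU := hUt, s := sY F ν, sv := sY_val F ν, γ := γ₀ / 2, γ0 := half_pos hγ, hγ := ?_,
            m := m, m0 := by omega, I := I, hI := hI,
            Bad := BadV z I w lb,
            code := fun p => hC z m I w lb p hm,
            rel := ?_ }⟩
  · intro r hr
    obtain ⟨j, hj⟩ := hN z ν hν r hr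
    refine ⟨j, hj.trans_le ?_⟩
    refine measureReal_mono ?_ (measure_ne_top _ _)
    intro ω hω h
    refine hω ?_
    have h1 := (en w).injective h
    exact vi_vl_inj z _ _ (congrArg Prod.fst h1)
  · unfold ds
    have h1 : ul U (fun _ => γ₀ / 2) ≤ ul U fun m' => avgP 2 m' (sY F ν) := by
      refine hUle _ _ ⟨|γ₀ / 2|, fun _ => le_rfl⟩ ⟨1, fun m' => avgP_abs m' _ hsv⟩ ?_
      filter_upwards [hUG 0] with m' hm'
      obtain ⟨i, _, hi⟩ := hm'
      exact hi.dens
    rwa [hUc] at h1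
  · set δ : ℝ := (γ₀ / 2) ^ 4 / 10 ^ 9 - (10 * η + (m : ℝ) / w) with hδ
    have hδ0 : 0 < δ := by rw [hδ]; linarith
    obtain ⟨i₀, hi₀⟩ : ∃ i₀ : ℕ, 12 / δ ≤ i₀ := exists_nat_ge _
    unfold La
    have h1 : ul U (fun m' => avgP 2 m' fun p => sY F ν p * ν.real (Set.univ ∩
        {ω | Wd shY (aY z w) m p ω ∈ BadV z I w lb p})) ≤
          ul U fun _ => (γ₀ / 2) ^ 4 / 10 ^ 9 := by
      refine hUle _ _ ⟨1, fun m' => avgP_abs m' _ (hprod _)⟩
        ⟨|(γ₀ / 2) ^ 4 / 10 ^ 9|, fun _ => le_rfl⟩ ?_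
      filter_upwards [hUG (max i₀ m)] with m' hm'
      obtain ⟨i, hi, hg⟩ := hm'
      have h2 := hR z m I w lb γ₀ η F B ν i m' hw hν hF hlb hη her
        ((le_max_right _ _).trans hi) hg
      simp only [Set.univ_inter]
      refine h2.trans ?_
      have h3 : 12 / ((i : ℝ) + 1) ≤ δ := by
        have h4 : (i₀ : ℝ) ≤ i := by exact_mod_cast (le_max_left _ _).trans hi
        have h5 : 12 / δ ≤ (i : ℝ) + 1 := by linarith
        rw [div_le_iff₀ hδ0] at h5
        rw [div_le_iff₀ (by positivity)]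
        linarith
      linarith
    rwa [hUc] at h1

end Pool.Agent.H7.V
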